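import Mathlib
import Pool.Agent.H813Z.LpRed
import Pool.Agent.H813Z.LpInst
import Pool.Agent.H813Z.LpSanity

set_option autoImplicit false

namespace Pool.Agent.Results.MP_1d722c_an.AStableRankOne

open Pool.Agent.H813Z.LpCross

/-- For every minimal homeomorphism `h` of an infinite compact Hausdorff totally disconnected
space `X` (in particular of the Cantor set) and every exponent `p ≥ 1`, the invertible elements of
the reduced `L^p` crossed product `F^p_r(ℤ, X, h)` are dense. -/
theorem result :
    ∀ (X : Type) [TopologicalSpace X] [CompactSpace X] [T2Space X] [TotallyDisconnectedSpace X]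
      [Infinite X] (h : X ≃ₜ X), (∀ x : X, DenseRange fun n : ℤ => (h ^ n) x) →
      ∀ (p : ENNReal) [Fact (1 ≤ p)], Dense {a : FpRed p h | IsUnit a} :=
  fun _ _ _ _ _ _ _ hmin p _ => dense_units_red (sys_lc hmin) p

end Pool.Agent.Results.MP_1d722c_an.AStableRankOne
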